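import Pool.Agent.Helper40.Ct.Goals

/-!
MP_034a88_co, packet BDRY: the cochain is closed modulo `r + 1`.
-/

set_option autoImplicit false

open Finset

namespace Pool.Agent.Helper65.Ct

open Pool.Agent.Helper40.Ct

variable {d r : ℕ}

lemma mem_colList (e : El d r) : e ∈ colList d r ↔ ∃ i a, e = some (i, a) := by
  unfold colList
  simp only [List.mem_flatMap, List.mem_finRange, true_and, List.mem_map]
  constructor
  · rintro ⟨i, a, rfl⟩
    exact ⟨i, a, rfl⟩
  · rintro ⟨i, a, rfl⟩
    exact ⟨i, a, rfl⟩

lemma none_notMem : (none : El d r) ∉ colList d r := by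
  rw [mem_colList]
  rintro ⟨i, a, h⟩
  exact absurd h (by simp)

lemma length_colList : (colList d r).length = (d + 1) * r := by
  unfold colList
  rw [List.length_flatMap]
  simp [List.length_finRange]

lemma nodup_colList : (colList d r).Nodup := by
  unfold colList
  rw [List.nodup_flatMap]
  constructor
  · intro i _
    apply List.Nodup.map _ (List.nodup_finRange r)
    intro a b h
    simpa using h
  · apply (List.nodup_finRange (d + 1)).imp
    intro i j hij
    rw [Function.onFun, List.disjoint_left]
    intro e he he'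
    rw [List.mem_map] at he he'
    obtain ⟨a, _, rfl⟩ := he
    obtain ⟨b, _, h⟩ := he'
    simp only [Option.some.injEq, Prod.mk.injEq] at h
    exact hij h.1.symm

lemma nodup_elList : (elList d r).Nodup := by
  unfold elList
  rw [List.nodup_cons]
  exact ⟨none_notMem, nodup_colList⟩

lemma length_elList : (elList d r).length = (d + 1) * r + 1 := by
  unfold elList
  rw [List.length_cons, length_colList]

lemma getElem_notMem_eraseIdx {β : Type} {l : List β} (hl : l.Nodup) {n : ℕ} (h : n < l.length) :
    l[n] ∉ l.eraseIdx n := by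
  have h1 := (List.getElem_cons_eraseIdx_perm h).nodup_iff.2 hl
  exact (List.nodup_cons.1 h1).1

/-- the sum of the coordinates `(0, j)` -/
noncomputable def lin (d r : ℕ) : (Fin ((d + 1) * (r + 1)) → ℝ) →ₗ[ℝ] ℝ :=
  ∑ j : Fin (r + 1), LinearMap.proj (finProdFinEquiv ((0 : Fin (d + 1)), j))

lemma lin_enc (π : Fac d r) (w : Fin d → ℝ) (e : El d r) : lin d r (enc π w e) = 1 := by
  unfold lin enc
  rw [LinearMap.sum_apply]
  simp only [LinearMap.proj_apply, Equiv.symm_apply_apply]
  rw [Finset.sum_ite_eq' univ (part π e)]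
  simp

lemma bdf_fpi {α : Type} (u : α → El d r → (Fin d → ℝ)) (π : Fac d r)
    (l : List (α × El d r)) :
    bdf (fpi u π) l = bdf (dgL (bvec d r)) (l.map fun q => enc π (u q.1 q.2) q.2) := by
  unfold bdf fpi
  rw [List.length_map]
  apply Finset.sum_congr rfl
  intro i _
  rw [List.eraseIdx_map]

lemma Pf_bdf_eq_zero (hC : COC) (hP : PATHS) (hG : GENL) {α : Type}
    (u : α → El d r → (Fin d → ℝ)) (X : List α) (hX : X.Nodup) (hl : X.length = d + 2)
    (hgen : Gen u X) (π : Fac d r) : Pf (elList d r) (bdf (fpi u π)) X = 0 := by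
  rw [← zero_dvd_iff]
  apply hP
  intro l hmem hlen hnd
  rw [zero_dvd_iff, bdf_fpi]
  apply hC ((d + 1) * (r + 1)) (bvec d r) _ (lin d r)
  · rw [List.length_map]
    rw [length_elList, hl] at hlen
    have h1 : (d + 1) * (r + 1) = (d + 1) * r + (d + 1) := by ring
    omega
  · intro w hw
    rw [List.mem_map] at hw
    obtain ⟨q, _, rfl⟩ := hw
    rw [lin_enc]
    exact one_pos
  · exact hG d r α u π l X (hnd hX nodup_elList) (fun q hq => (hmem q hq).1) hgen

theorem bdry : COC → EZ → PATHS → CYC → CANC → GENL → BDRY := by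
  intro hC hE hP hCy hCa hG d r α u X hr hX hl hgen
  have hXne : X ≠ [] := by
    rintro rfl
    simp at hl
  have hEne : elList d r ≠ [] := by
    unfold elList
    exact List.cons_ne_nil _ _
  -- the boundary for one facet
  have h1 : ∀ π : Fac d r, bdf (Pf (elList d r) (fpi u π)) X =
      -((-1) ^ (X.length - 1)) * bdf (fun E' => Pf E' (fpi u π) X) (elList d r) := by
    intro π
    have h2 := hE α (El d r) (elList d r) (fpi u π) X hXne hEne (Or.inl (by omega))
    rw [Pf_bdf_eq_zero hC hP hG u X hX hl hgen π] at h2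
    linarith
  have h3 : bdf (cc u) X = -((-1) ^ (X.length - 1)) *
      ∑ l ∈ range (elList d r).length, (-1) ^ l *
        ∑ π : Fac d r, sg π * Pf ((elList d r).eraseIdx l) (fpi u π) X := by
    have h4 : bdf (cc u) X = ∑ π : Fac d r, sg π * bdf (Pf (elList d r) (fpi u π)) X := by
      unfold bdf cc
      simp only [Finset.mul_sum]
      rw [Finset.sum_comm]
      apply Finset.sum_congr rfl
      intro π _
      apply Finset.sum_congr rfl
      intro i _
      ring
    rw [h4]
    simp only [h1]
    unfold bdf
    simp only [Finset.mul_sum]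
    rw [Finset.sum_comm]
    apply Finset.sum_congr rfl
    intro l _
    apply Finset.sum_congr rfl
    intro π _
    ring
  rw [h3]
  apply Dvd.dvd.mul_left
  apply Finset.dvd_sum
  intro l hlr
  apply Dvd.dvd.mul_left
  rw [Finset.mem_range] at hlr
  rcases Nat.eq_zero_or_pos l with rfl | hpos
  · apply hCy
    unfold elList
    rw [List.eraseIdx_cons_zero]
    exact none_notMem
  · obtain ⟨k, rfl⟩ : ∃ k, l = k + 1 := ⟨l - 1, by omega⟩
    have hk : k < (colList d r).length := by
      rw [length_elList] at hlr
      rw [length_colList]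
      omega
    have h0 : (elList d r)[k + 1] = (colList d r)[k] := rfl
    have h5 : (elList d r)[k + 1] ∈ colList d r := by
      rw [h0]
      exact List.getElem_mem _
    obtain ⟨i, a, h6⟩ := (mem_colList _).1 h5
    have h7 : (some (i, a) : El d r) ∉ (elList d r).eraseIdx (k + 1) := by
      rw [← h6]
      exact getElem_notMem_eraseIdx nodup_elList hlr
    rw [hCa d r α u X _ i a h7]
    exact dvd_zero _

end Pool.Agent.Helper65.Ct
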